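import Pool.Agent.U199.SQ.Defs

universe u v w u' v' w'

namespace Pool.Agent.U199.SQ

open MvPolynomial

section basic

variable {k : Type u} [Field k] {K : Type v} [Field K] [Algebra k K] {ι : Type w}
variable {η : ι → K} {x : ι → k}

/-- `f` lies in the local ring at `x` and takes the value `a` at `x`. -/
def HasVal (η : ι → K) (x : ι → k) (f : K) (a : k) : Prop :=
  ∃ (d : ℕ) (F G : MvPolynomial ι k), F.IsHomogeneous d ∧ G.IsHomogeneous d ∧
    aeval x G ≠ 0 ∧ f = aeval η F / aeval η G ∧ a = aeval x F / aeval x G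

lemma IsPoint.ne (hx : IsPoint η x) {d : ℕ} {G : MvPolynomial ι k} (hG : G.IsHomogeneous d)
    (h : aeval x G ≠ 0) : aeval η G ≠ 0 := fun h' => h (hx.2 d G hG h')

lemma HasVal.mem {f : K} {a : k} (h : HasVal η x f a) : f ∈ stalk η 0 x := by
  obtain ⟨d, F, G, hF, hG, h1, h2, h3⟩ := h
  exact ⟨d, F, G, by simpa using hF, hG, h1, h2⟩

lemma exists_hasVal {f : K} (h : f ∈ stalk η 0 x) : ∃ a, HasVal η x f a := by
  obtain ⟨d, F, G, hF, hG, h1, h2⟩ := h
  exact ⟨_, d, F, G, by simpa using hF, hG, h1, h2, rfl⟩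

lemma HasVal.unique (hx : IsPoint η x) {f : K} {a b : k} (h : HasVal η x f a)
    (h' : HasVal η x f b) : a = b := by
  obtain ⟨d, F, G, hF, hG, h1, h2, h3⟩ := h
  obtain ⟨e, F', G', hF', hG', h1', h2', h3'⟩ := h'
  have e1 := hx.ne hG h1
  have e2 := hx.ne hG' h1'
  have h4 : aeval η (F * G' - F' * G) = 0 := by
    rw [h2, div_eq_div_iff e1 e2] at h2'
    rw [map_sub, map_mul, map_mul, h2', sub_self]
  have h5 : (F * G' - F' * G).IsHomogeneous (d + e) :=
    (hF.mul hG').sub (by rw [add_comm]; exact hF'.mul hG)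
  have h6 := hx.2 _ _ h5 h4
  rw [map_sub, map_mul, map_mul, sub_eq_zero] at h6
  rw [h3, h3', div_eq_div_iff h1 h1', h6]

lemma HasVal.add (hx : IsPoint η x) {f g : K} {a b : k} (h : HasVal η x f a)
    (h' : HasVal η x g b) : HasVal η x (f + g) (a + b) := by
  obtain ⟨d, F, G, hF, hG, h1, h2, h3⟩ := h
  obtain ⟨e, F', G', hF', hG', h1', h2', h3'⟩ := h'
  have e1 := hx.ne hG h1
  have e2 := hx.ne hG' h1'
  refine ⟨d + e, F * G' + G * F', G * G', (hF.mul hG').add (hG.mul hF'), hG.mul hG', ?_, ?_, ?_⟩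
  · rw [map_mul]; exact mul_ne_zero h1 h1'
  · rw [h2, h2', div_add_div _ _ e1 e2]; simp only [map_add, map_mul]
  · rw [h3, h3', div_add_div _ _ h1 h1']; simp only [map_add, map_mul]

lemma HasVal.mul (_ : IsPoint η x) {f g : K} {a b : k} (h : HasVal η x f a)
    (h' : HasVal η x g b) : HasVal η x (f * g) (a * b) := by
  obtain ⟨d, F, G, hF, hG, h1, h2, h3⟩ := h
  obtain ⟨e, F', G', hF', hG', h1', h2', h3'⟩ := h'
  refine ⟨d + e, F * F', G * G', (hF.mul hF'), hG.mul hG', ?_, ?_, ?_⟩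
  · rw [map_mul]; exact mul_ne_zero h1 h1'
  · rw [h2, h2', div_mul_div_comm]; simp only [map_mul]
  · rw [h3, h3', div_mul_div_comm]; simp only [map_mul]

lemma HasVal.inv (_ : IsPoint η x) {f : K} {a : k} (h : HasVal η x f a) (ha : a ≠ 0) :
    HasVal η x f⁻¹ a⁻¹ := by
  obtain ⟨d, F, G, hF, hG, h1, h2, h3⟩ := h
  have h4 : aeval x F ≠ 0 := by
    intro h5
    rw [h5, zero_div] at h3
    exact ha h3
  exact ⟨d, G, F, hG, hF, h4, by rw [h2, inv_div], by rw [h3, inv_div]⟩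

lemma hasVal_zero : HasVal η x (0 : K) 0 :=
  ⟨0, 0, 1, isHomogeneous_zero _ _ _, isHomogeneous_one _ _, by simp, by simp, by simp⟩

lemma hasVal_one : HasVal η x (1 : K) 1 :=
  ⟨0, 1, 1, isHomogeneous_one _ _, isHomogeneous_one _ _, by simp, by simp, by simp⟩

lemma HasVal.sum (hx : IsPoint η x) {α : Type*} (s : Finset α) {f : α → K} {a : α → k}
    (h : ∀ i ∈ s, HasVal η x (f i) (a i)) : HasVal η x (∑ i ∈ s, f i) (∑ i ∈ s, a i) := by
  classical
  induction s using Finset.induction_on with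
  | empty => simpa using hasVal_zero
  | insert i s hi ih =>
    rw [Finset.sum_insert hi, Finset.sum_insert hi]
    exact (h i (Finset.mem_insert_self _ _)).add hx
      (ih (fun j hj => h j (Finset.mem_insert_of_mem hj)))

/-- `f` is a unit of the local ring at `x`. -/
def IsUnitAt (η : ι → K) (x : ι → k) (f : K) : Prop :=
  f ≠ 0 ∧ f ∈ stalk η 0 x ∧ f⁻¹ ∈ stalk η 0 x

lemma HasVal.isUnitAt (hx : IsPoint η x) {f : K} {a : k} (h : HasVal η x f a) (ha : a ≠ 0) :
    IsUnitAt η x f := by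
  refine ⟨?_, h.mem, (h.inv hx ha).mem⟩
  rintro rfl
  exact ha (h.unique hx hasVal_zero)

lemma IsUnitAt.ne_zero (hx : IsPoint η x) {f : K} {a : k} (hf : IsUnitAt η x f)
    (h : HasVal η x f a) : a ≠ 0 := by
  rintro rfl
  obtain ⟨b, hb⟩ := exists_hasVal hf.2.2
  have h1 := h.mul hx hb
  rw [mul_inv_cancel₀ hf.1, zero_mul] at h1
  exact one_ne_zero (hasVal_one.unique hx h1)

end basic

end Pool.Agent.U199.SQ
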