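import Mathlib

universe u v w

namespace Pool.Agent.U199.SQ

open MvPolynomial

variable {k : Type u} [Field k]

lemma hc_mul {σ : Type v} {a b : MvPolynomial σ k} {m : ℕ} (ha : a.IsHomogeneous m) (n : ℕ) :
    homogeneousComponent (m + n) (a * b) = a * homogeneousComponent n b := by
  conv_lhs => rw [← sum_homogeneousComponent b]
  rw [Finset.mul_sum, map_sum]
  have h1 : ∀ i, homogeneousComponent (m + n) (a * homogeneousComponent i b) =
      if n = i then a * homogeneousComponent i b else 0 := by
    intro i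
    rw [homogeneousComponent_of_mem (ha.mul (homogeneousComponent_isHomogeneous i b))]
    by_cases h : n = i
    · rw [h]; simp
    · rw [if_neg (by omega), if_neg h]
  rw [Finset.sum_congr rfl (fun i _ => h1 i), Finset.sum_ite_eq]
  split_ifs with h
  · rfl
  · rw [Finset.mem_range] at h
    rw [homogeneousComponent_eq_zero _ _ (by omega), mul_zero]

/-- The quadratic polynomial `c^2 + a b`. -/
noncomputable def tq (k : Type u) [Field k] : MvPolynomial (Fin 3) k := X 2 ^ 2 + X 0 * X 1

lemma tq_hom : (tq k).IsHomogeneous 2 :=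
  (isHomogeneous_X_pow 2 2).add ((isHomogeneous_X k 0).mul (isHomogeneous_X k 1))

lemma tq_ne : tq k ≠ 0 := by
  intro h
  have h1 := congrArg (eval (![0, 0, 1] : Fin 3 → k)) h
  simp [tq] at h1

theorem coef_key {f g P : MvPolynomial (Fin 3) k} {M : ℕ} (hM : 1 ≤ M)
    (h : (tq k) ^ M * (X 2 ^ 2 * f - X 0 ^ 2 * g) = (tq k) ^ 2 * ∑ j ∈ Finset.range (M + 1),
        (tq k) ^ (M - j) * homogeneousComponent j P) :
    coeff (Finsupp.single 2 1) f = 0 := by
  have h1 := congrArg (homogeneousComponent (2 * M + 3)) h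
  have e1 : homogeneousComponent (2 * M + 3) ((tq k) ^ M * (X 2 ^ 2 * f - X 0 ^ 2 * g)) =
      (tq k) ^ M * homogeneousComponent 3 (X 2 ^ 2 * f - X 0 ^ 2 * g) :=
    hc_mul (tq_hom.pow M) 3
  have e2 : homogeneousComponent (2 * M + 3) ((tq k) ^ 2 * ∑ j ∈ Finset.range (M + 1),
        (tq k) ^ (M - j) * homogeneousComponent j P) =
      (tq k) ^ M * (tq k * homogeneousComponent 1 P) := by
    rw [Finset.mul_sum, map_sum, Finset.sum_eq_single 1]
    · have h2 : ((tq k) ^ 2 * ((tq k) ^ (M - 1) * homogeneousComponent 1 P)).IsHomogeneous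
          (2 * 2 + (2 * (M - 1) + 1)) :=
        (tq_hom.pow 2).mul ((tq_hom.pow _).mul (homogeneousComponent_isHomogeneous 1 P))
      rw [homogeneousComponent_of_mem h2, if_pos (by omega), ← mul_assoc, ← pow_add, ← mul_assoc,
        ← pow_succ]
      congr 2
      omega
    · intro j hj hj1
      have h2 : ((tq k) ^ 2 * ((tq k) ^ (M - j) * homogeneousComponent j P)).IsHomogeneous
          (2 * 2 + (2 * (M - j) + j)) :=
        (tq_hom.pow 2).mul ((tq_hom.pow _).mul (homogeneousComponent_isHomogeneous j P))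
      rw [Finset.mem_range] at hj
      rw [homogeneousComponent_of_mem h2, if_neg (by omega)]
    · intro h1
      rw [Finset.mem_range] at h1
      omega
  rw [e1, e2] at h1
  have h3 := mul_left_cancel₀ (pow_ne_zero M (tq_ne (k := k))) h1
  set Q := homogeneousComponent 1 P with hQ
  have hx2 : (X 2 ^ 2 : MvPolynomial (Fin 3) k) = monomial (Finsupp.single 2 2) 1 :=
    X_pow_eq_monomial
  have hx0 : (X 0 ^ 2 : MvPolynomial (Fin 3) k) = monomial (Finsupp.single 0 2) 1 :=
    X_pow_eq_monomial
  have hx01 : (X 0 * X 1 : MvPolynomial (Fin 3) k) =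
      monomial (Finsupp.single 0 1 + Finsupp.single 1 1) 1 := by
    rw [X, X, monomial_mul, one_mul]
  -- coefficient of `c^3`
  have c1 := congrArg (coeff (Finsupp.single 2 3)) h3
  have c2 := congrArg (coeff (Finsupp.single 0 1 + Finsupp.single 1 1 + Finsupp.single 2 1)) h3
  have n1 : ¬ (Finsupp.single (0 : Fin 3) 2 ≤ Finsupp.single (2 : Fin 3) 3) := by
    intro h
    have := h 0
    simp at this
  have n2 : ¬ (Finsupp.single (0 : Fin 3) 1 + Finsupp.single 1 1 ≤ Finsupp.single (2 : Fin 3) 3) := by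
    intro h
    have := h 0
    simp at this
  have n3 : Finsupp.single (2 : Fin 3) 2 ≤ Finsupp.single (2 : Fin 3) 3 := by
    intro i
    rcases eq_or_ne i 2 with rfl | h
    · simp
    · rw [Finsupp.single_eq_of_ne h, Finsupp.single_eq_of_ne h]
  have n4 : ¬ (Finsupp.single (2 : Fin 3) 2 ≤
      Finsupp.single 0 1 + Finsupp.single 1 1 + Finsupp.single 2 1) := by
    intro h
    have := h 2
    simp at this
  have n5 : ¬ (Finsupp.single (0 : Fin 3) 2 ≤
      Finsupp.single 0 1 + Finsupp.single 1 1 + Finsupp.single 2 1) := by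
    intro h
    have := h 0
    simp at this
  have n6 : (Finsupp.single (0 : Fin 3) 1 + Finsupp.single 1 1 ≤
      Finsupp.single 0 1 + Finsupp.single 1 1 + Finsupp.single 2 1) := le_self_add
  have m1 : Finsupp.single (2 : Fin 3) 3 - Finsupp.single 2 2 = Finsupp.single 2 1 := by
    rw [← Finsupp.single_tsub]
  have m2 : (Finsupp.single (0 : Fin 3) 1 + Finsupp.single 1 1 + Finsupp.single 2 1) -
      (Finsupp.single (0 : Fin 3) 1 + Finsupp.single 1 1) = Finsupp.single 2 1 :=
    add_tsub_cancel_left _ _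
  rw [tq, coeff_homogeneousComponent, if_pos (by simp), coeff_sub, add_mul, coeff_add, hx2, hx0,
    hx01, coeff_monomial_mul', coeff_monomial_mul', coeff_monomial_mul', coeff_monomial_mul',
    if_pos n3, if_neg n1, if_pos n3, if_neg n2, m1, one_mul, one_mul, sub_zero, add_zero] at c1
  rw [tq, coeff_homogeneousComponent, if_pos (by simp), coeff_sub, add_mul, coeff_add, hx2, hx0,
    hx01, coeff_monomial_mul', coeff_monomial_mul', coeff_monomial_mul', coeff_monomial_mul',
    if_neg n4, if_neg n5, if_neg n4, if_pos n6, m2, one_mul, sub_zero, zero_add] at c2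
  rw [c1, ← c2]

end Pool.Agent.U199.SQ
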