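import Mathlib

/-!
Classical projective varieties through their generic points.

`k` is a field, `K` a field extension of `k`, and `η : ι → K` a vector of homogeneous coordinates.
The projective variety `X_η` in the projective space with homogeneous coordinates indexed by `ι`
is the zero locus of all the forms over `k` which vanish at `η`.
-/

universe u v w u' v' w'

namespace Pool.Agent.U199.SQ

open MvPolynomial

section defs

variable {k : Type u} [Field k] {K : Type v} [Field K] [Algebra k K] {ι : Type w}

/-- `x` is a coordinate vector of a `k`-point of the projective variety with generic point `η`: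
it is nonzero and every form over `k` vanishing at `η` vanishes at `x`. -/
def IsPoint (η : ι → K) (x : ι → k) : Prop :=
  x ≠ 0 ∧ ∀ (d : ℕ) (F : MvPolynomial ι k), F.IsHomogeneous d → aeval η F = 0 → aeval x F = 0

/-- The stalk at the point `x` of the sheaf `O_X(e)`, inside the function field `K`: all the
fractions `F(η) / G(η)` of forms with `deg F = deg G + e` and `G(x) ≠ 0`. For `e = 0` this is the
local ring of `X` at `x`; for `e = 1` it is the stalk of the hyperplane bundle `O_X(1)`, the
coordinate `x_i`, a global section of `O_X(1)`, being `η i`. -/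
def stalk (η : ι → K) (e : ℕ) (x : ι → k) : Set K :=
  {f | ∃ (d : ℕ) (F G : MvPolynomial ι k), F.IsHomogeneous (d + e) ∧ G.IsHomogeneous d ∧
    aeval x G ≠ 0 ∧ f = aeval η F / aeval η G}

/-- The stalk at the point `x` of the tangent sheaf `T_X = Der_k(O_X, O_X)`, inside its generic
stalk `Der_k(K, K)`: the derivations which map the local ring at `x` into itself. -/
def tangentStalk (η : ι → K) (x : ι → k) : Set (Derivation k K K) :=
  {D | ∀ f ∈ stalk η 0 x, D f ∈ stalk η 0 x}

/-- Two projective varieties given by generic points whose coordinate ratios generate the function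
fields `K` and `K'` are isomorphic over `k`: there is a `k`-isomorphism of the function fields
under which the local rings at the points of one are exactly the local rings at the points of the
other. -/
def AreIsomorphic (k : Type u) [Field k] {K : Type v} [Field K] [Algebra k K] {ι : Type w}
    {K' : Type v'} [Field K'] [Algebra k K'] {ι' : Type w'}
    (η : ι → K) (η' : ι' → K') : Prop :=
  ∃ σ : K ≃ₐ[k] K',
    (∀ x : ι → k, IsPoint η x → ∃ x' : ι' → k, IsPoint η' x' ∧
      σ '' stalk η 0 x = stalk η' 0 x') ∧
    (∀ x' : ι' → k, IsPoint η' x' → ∃ x : ι → k, IsPoint η x ∧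
      σ '' stalk η 0 x = stalk η' 0 x')

end defs

/-- The generic point `(1 : t_1 : ... : t_n)` of the projective space `P^n` over `k`. -/
noncomputable def projPoint (k : Type u) [Field k] (n : ℕ) :
    Fin (n + 1) → FractionRing (MvPolynomial (Fin n) k) :=
  Fin.cons 1 (fun i => algebraMap (MvPolynomial (Fin n) k) _ (X i))

/-- The quadratic form `x_0^2 + x_1 x_2 + x_3 x_4`. -/
noncomputable def quad (k : Type u) [Field k] : MvPolynomial (Fin 5) k :=
  X 0 ^ 2 + X 1 * X 2 + X 3 * X 4

/-- The generic point `(c : 1 : c^2 + a b : a : b)` of the quadric `x_0^2 + x_1 x_2 + x_3 x_4 = 0`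
over a field `k` of characteristic two. Its coordinates lie in the field `k(a, b, c)` of rational
functions in three variables `a = t_0`, `b = t_1`, `c = t_2`. -/
noncomputable def quadPoint (k : Type u) [Field k] : Fin 5 → FractionRing (MvPolynomial (Fin 3) k) :=
  fun i => algebraMap (MvPolynomial (Fin 3) k) _
    ((![X 2, 1, X 2 ^ 2 + X 0 * X 1, X 0, X 1] : Fin 5 → MvPolynomial (Fin 3) k) i)

end Pool.Agent.U199.SQ
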