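import Pool.Agent.U199.SQ.Main

universe u v w u' v' w'

namespace Pool.Agent.U199.SQ

open MvPolynomial

variable {k : Type u} [Field k]

lemma wr_hom' {ι : Type w} {L F G : MvPolynomial ι k} {d e : ℕ} (hL : L.IsHomogeneous (e + 1))
    (hF : F.IsHomogeneous d) (hG : G.IsHomogeneous d) (i : ι) :
    (wr L F G i).IsHomogeneous (e + (d + d)) := by
  obtain _ | d := d
  · rw [← totalDegree_zero_iff_isHomogeneous, totalDegree_eq_zero_iff_eq_C] at hF hG
    rw [wr, hF, hG]
    simp only [pderiv_C, mul_zero, sub_zero]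
    exact isHomogeneous_zero _ _ _
  · have h1 : (G * pderiv i F - F * pderiv i G).IsHomogeneous (d + 1 + d) :=
      (hG.mul hF.pderiv).sub (hF.mul hG.pderiv)
    have h2 := hL.mul h1
    have h3 : e + 1 + (d + 1 + d) = e + (d + 1 + (d + 1)) := by ring
    rw [h3] at h2
    exact h2

theorem ratfield_trdeg (n : ℕ) :
    Algebra.trdeg k (FractionRing (MvPolynomial (Fin n) k)) = n := by
  have hb : IsTranscendenceBasis k (algebraMap (MvPolynomial (Fin n) k)
      (FractionRing (MvPolynomial (Fin n) k)) ∘ (X : Fin n → MvPolynomial (Fin n) k)) := by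
    have halg : Algebra.IsAlgebraic (MvPolynomial (Fin n) k)
        (FractionRing (MvPolynomial (Fin n) k)) :=
      IsLocalization.isAlgebraic _ (nonZeroDivisors (MvPolynomial (Fin n) k))
    exact (IsTranscendenceBasis.mvPolynomial (Fin n) k).algebraMap_comp
  have h := hb.lift_cardinalMk_eq_trdeg
  simpa using h.symm

/-- The quadric is not isomorphic to a projective space of any dimension. -/
theorem quad_not_iso_all [CharP k 2] [IsAlgClosed k] (n : ℕ) :
    ¬ AreIsomorphic k (quadPoint k) (projPoint k n) := by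
  intro h
  have hn : n = 3 := by
    obtain ⟨σ, -⟩ := h
    have h1 := σ.trdeg_eq
    rw [ratfield_trdeg, ratfield_trdeg] at h1
    exact_mod_cast h1.symm
  subst hn
  exact quad_not_iso h

/-- The nowhere vanishing map `O(1) → T` on the strange quadric. -/
theorem quad_map [CharP k 2] [IsAlgClosed k] :
    ∃ φ : FractionRing (MvPolynomial (Fin 3) k) →ₗ[FractionRing (MvPolynomial (Fin 3) k)]
        Derivation k (FractionRing (MvPolynomial (Fin 3) k))
          (FractionRing (MvPolynomial (Fin 3) k)),
      (∀ x : Fin 5 → k, IsPoint (quadPoint k) x →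
        ∀ s ∈ stalk (quadPoint k) 1 x, φ s ∈ tangentStalk (quadPoint k) x) ∧
      (∀ x : Fin 5 → k, IsPoint (quadPoint k) x →
        ∃ s ∈ stalk (quadPoint k) 1 x, ∃ f ∈ stalk (quadPoint k) 0 x, φ s f = 1) := by
  obtain ⟨δ, hδ⟩ := exists_der_frac (pderiv (R := k) (2 : Fin 3))
  have h2 : (2 : MvPolynomial (Fin 3) k) = 0 := by
    have : (2 : MvPolynomial (Fin 3) k) = C 2 := (map_ofNat C 2).symm
    rw [this, CharTwo.two_eq_zero, C_0]
  have hη : ∀ i, δ (quadPoint k i) = if i = 0 then 1 else 0 := by
    intro i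
    have h1 : quadPoint k i = algebraMap (MvPolynomial (Fin 3) k) _ (quadPointR k i) := rfl
    rw [h1, hδ]
    have h3 : pderiv 2 (quadPointR k i) = if i = 0 then 1 else 0 := by
      fin_cases i
      · simp [quadPointR]
      · simp [quadPointR]
      · simp only [quadPointR, Fin.reduceFinMk, Matrix.cons_val, map_add, Derivation.leibniz,
          Derivation.leibniz_pow, pderiv_X_self, smul_eq_mul, nsmul_eq_mul, Nat.cast_ofNat, h2,
          zero_mul]
        rw [pderiv_X_of_ne (by decide), pderiv_X_of_ne (by decide)]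
        simp
      · simp [quadPointR]
      · simp [quadPointR]
    rw [h3]
    split_ifs
    · exact map_one _
    · exact map_zero _
  have hF : ∀ F : MvPolynomial (Fin 5) k, δ (aeval (quadPoint k) F) =
      aeval (quadPoint k) (pderiv 0 F) := by
    intro F
    rw [der_aeval, Finset.sum_eq_single 0]
    · rw [hη, if_pos rfl, mul_one]
    · intro i _ hi
      rw [hη, if_neg hi, mul_zero]
    · intro h; exact absurd (Finset.mem_univ _) h
  have hq : ∀ F G : MvPolynomial (Fin 5) k, δ (aeval (quadPoint k) F / aeval (quadPoint k) G) =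
      aeval (quadPoint k) (wr 1 F G 0) / aeval (quadPoint k) (G * G) := by
    intro F G
    rw [Derivation.leibniz_div, hF, hF]
    simp only [wr, map_mul, map_sub, one_mul, smul_eq_mul]
    rw [inv_pow, div_eq_inv_mul, sq]
  refine ⟨LinearMap.toSpanSingleton _ _ δ, ?_, ?_⟩
  · rintro x hx s ⟨e, A, B, hA, hB, hBx, rfl⟩ f ⟨d, F, G, hF', hG, hGx, rfl⟩
    rw [add_zero] at hF'
    refine ⟨e + (d + d), wr A F G 0, B * (G * G), by simpa using wr_hom' hA hF' hG 0,
      hB.mul (hG.mul hG), ?_, ?_⟩
    · rw [map_mul, map_mul]; exact mul_ne_zero hBx (mul_ne_zero hGx hGx)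
    · rw [LinearMap.toSpanSingleton_apply, Derivation.smul_apply, hq, smul_eq_mul]
      simp only [wr, map_mul, map_sub, one_mul]
      rw [div_mul_div_comm]
  · intro x hx
    have hx' := (quad_point x).1 hx
    obtain ⟨i, hi0, hi⟩ : ∃ i : Fin 5, i ≠ 0 ∧ x i ≠ 0 := by
      by_contra hcon
      push Not at hcon
      have h := hx'.2
      rw [aeval_quad, hcon 1 (by decide), hcon 3 (by decide)] at h
      apply hx'.1
      funext i
      rcases eq_or_ne i 0 with rfl | h0
      · simpa using h
      · exact hcon i h0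
    have hηi : quadPoint k i ≠ 0 := by
      have := hx.ne (isHomogeneous_X k i) (by rw [aeval_X]; exact hi)
      rwa [aeval_X] at this
    refine ⟨quadPoint k i, ⟨0, X i, 1, isHomogeneous_X _ _, isHomogeneous_one _ _, by simp,
      by simp⟩, quadPoint k 0 / quadPoint k i, ⟨1, X 0, X i, isHomogeneous_X _ _,
      isHomogeneous_X _ _, by rw [aeval_X]; exact hi, by rw [aeval_X, aeval_X]⟩, ?_⟩
    have h3 := hq (X 0) (X i)
    rw [LinearMap.toSpanSingleton_apply, Derivation.smul_apply, smul_eq_mul]
    rw [aeval_X, aeval_X] at h3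
    rw [h3]
    simp only [wr, map_mul, map_sub, one_mul, aeval_X]
    rw [pderiv_X_self, pderiv_X_of_ne hi0]
    simp only [map_one, map_zero, mul_one, mul_zero, sub_zero]
    field_simp

end Pool.Agent.U199.SQ
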