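import Pool.Agent.U199.SQ.Quad2
import Pool.Agent.U199.SQ.Coef

universe u v w u' v' w'

namespace Pool.Agent.U199.SQ

open MvPolynomial

section conj

variable {k : Type u} [Field k] {K : Type v} [Field K] [Algebra k K] {K' : Type w} [Field K']
  [Algebra k K']

/-- Transport of a derivation along an isomorphism of fields. -/
noncomputable def conjDer (σ : K ≃ₐ[k] K') (D : Derivation k K K) : Derivation k K' K' :=
  Derivation.mk' (σ.toLinearMap ∘ₗ (D : K →ₗ[k] K) ∘ₗ σ.symm.toLinearMap) (by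
    intro a b
    simp only [LinearMap.comp_apply, AlgEquiv.toLinearMap_apply, Derivation.coeFn_coe, map_mul,
      Derivation.leibniz, smul_eq_mul, map_add, AlgEquiv.apply_symm_apply])

lemma conjDer_apply (σ : K ≃ₐ[k] K') (D : Derivation k K K) (y : K') :
    conjDer σ D y = σ (D (σ.symm y)) := rfl

end conj

section rigid

variable {k : Type u} [Field k]

/-- A derivation of the polynomial ring preserves the local rings of the affine chart. -/
lemma stalk_pt_der {E : Derivation k (MvPolynomial (Fin 3) k) (MvPolynomial (Fin 3) k)}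
    {D : Derivation k (FractionRing (MvPolynomial (Fin 3) k))
      (FractionRing (MvPolynomial (Fin 3) k))}
    (hD : ∀ P, D (algebraMap (MvPolynomial (Fin 3) k) _ P) = algebraMap _ _ (E P))
    (p : Fin 3 → k) {f : FractionRing (MvPolynomial (Fin 3) k)}
    (hf : f ∈ stalk (quadPoint k) 0 (pt p)) : D f ∈ stalk (quadPoint k) 0 (pt p) := by
  rw [mem_stalk_pt] at hf ⊢
  obtain ⟨A, B, hB, rfl⟩ := hf
  refine ⟨B * E A - A * E B, B ^ 2, by rw [map_pow]; exact pow_ne_zero 2 hB, ?_⟩
  rw [Derivation.leibniz_div, hD, hD]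
  simp only [smul_eq_mul, map_sub, map_mul, map_pow]
  rw [inv_pow, div_eq_inv_mul]

variable [CharP k 2] [IsAlgClosed k]

/-- Rigidity of the vector fields of the quadric: the coefficient of `∂ / ∂ a` of a global vector
field has no linear term in `c`. -/
theorem quad_rigid (D : Derivation k (FractionRing (MvPolynomial (Fin 3) k))
      (FractionRing (MvPolynomial (Fin 3) k)))
    (hD : ∀ x : Fin 5 → k, IsPoint (quadPoint k) x → ∀ f ∈ stalk (quadPoint k) 0 x,
      D f ∈ stalk (quadPoint k) 0 x) :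
    ∃ f : MvPolynomial (Fin 3) k,
      D (algebraMap (MvPolynomial (Fin 3) k) _ (X 0)) = algebraMap _ _ f ∧
      coeff (Finsupp.single 2 1) f = 0 := by
  have hpol : ∀ i : Fin 3, ∃ f : MvPolynomial (Fin 3) k,
      D (algebraMap (MvPolynomial (Fin 3) k) _ (X i)) = algebraMap _ _ f := by
    intro i
    apply mem_of_local
    intro p
    have h1 : algebraMap (MvPolynomial (Fin 3) k) _ (X i) ∈ stalk (quadPoint k) 0 (pt p) := by
      rw [mem_stalk_pt]
      exact ⟨X i, 1, by simp, by simp⟩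
    have h2 := hD _ (pt_isPoint p) _ h1
    rw [mem_stalk_pt] at h2
    obtain ⟨A, B, hB, hAB⟩ := h2
    refine ⟨A, B, hB, ?_⟩
    rw [hAB, div_mul_cancel₀]
    refine (map_ne_zero_iff _ (IsFractionRing.injective _ _)).2 ?_
    rintro rfl
    exact hB (map_zero _)
  obtain ⟨f, hf⟩ := hpol 0
  obtain ⟨g, hg⟩ := hpol 1
  obtain ⟨h, hh⟩ := hpol 2
  refine ⟨f, hf, ?_⟩
  set ι := algebraMap (MvPolynomial (Fin 3) k) (FractionRing (MvPolynomial (Fin 3) k)) with hι
  have hinj : Function.Injective ι := IsFractionRing.injective _ _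
  have ht0 : ι (tq k) ≠ 0 := (map_ne_zero_iff _ hinj).2 tq_ne
  have hDt : D (ι (tq k)) = ι (X 0 * g + X 1 * f) := by
    have h2 : (2 : FractionRing (MvPolynomial (Fin 3) k)) = 0 := by
      have : (2 : FractionRing (MvPolynomial (Fin 3) k)) = algebraMap k _ 2 :=
        (map_ofNat (algebraMap k _) 2).symm
      rw [this, CharTwo.two_eq_zero, map_zero]
    rw [tq, map_add, map_pow, map_mul, map_add, Derivation.leibniz, Derivation.leibniz_pow, hf, hg]
    simp only [smul_eq_mul, nsmul_eq_mul, Nat.cast_ofNat, h2, zero_mul, zero_add, map_add, map_mul]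
  have hφ : D (ι (X 0) / ι (tq k)) = ι (X 2 ^ 2 * f - X 0 ^ 2 * g) / ι (tq k) ^ 2 := by
    rw [Derivation.leibniz_div, hDt, hf, smul_eq_mul, smul_eq_mul, smul_eq_mul, inv_pow,
      div_eq_inv_mul]
    congr 1
    rw [← map_mul, ← map_mul, ← map_sub]
    congr 1
    rw [tq]
    ring
  obtain ⟨P, M, hM, hPM⟩ := second_chart (D (ι (X 0) / ι (tq k))) (by
    intro x hx hx2
    apply hD x hx
    refine ⟨1, X 3, X 2, isHomogeneous_X _ _, isHomogeneous_X _ _, ?_, ?_⟩
    · rw [aeval_X]; exact hx2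
    · rw [aeval_X, aeval_X]; rfl)
  apply coef_key (P := P) hM (g := g)
  apply hinj
  change ι (tq k ^ M) * _ = ι (∑ j ∈ Finset.range (M + 1),
    tq k ^ (M - j) * homogeneousComponent j P) at hPM
  rw [map_mul ι (tq k ^ 2), ← hPM, hφ, map_mul, map_pow ι _ 2]
  field_simp

/-- The quadric is not isomorphic to projective space. -/
theorem quad_not_iso : ¬ AreIsomorphic k (quadPoint k) (projPoint k 3) := by
  rintro ⟨σ, hσ, -⟩
  set ι := algebraMap (MvPolynomial (Fin 3) k) (FractionRing (MvPolynomial (Fin 3) k)) with hι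
  have hinj : Function.Injective ι := IsFractionRing.injective _ _
  obtain ⟨z, hz, hσz⟩ := hσ (pt 0) (pt_isPoint 0)
  obtain ⟨δ, hδ⟩ := exists_der_frac (pderiv (R := k) (2 : Fin 3))
  obtain ⟨ρ, hρ⟩ := exists_der_frac (pderiv (R := k) (0 : Fin 3))
  have hcon : ∀ (E : Derivation k (MvPolynomial (Fin 3) k) (MvPolynomial (Fin 3) k))
      (D : Derivation k (FractionRing (MvPolynomial (Fin 3) k))
      (FractionRing (MvPolynomial (Fin 3) k)))
      (_ : ∀ P, D (algebraMap (MvPolynomial (Fin 3) k) _ P) = algebraMap _ _ (E P)),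
      ∀ f ∈ stalk (projPoint k 3) 0 z, conjDer σ D f ∈ stalk (projPoint k 3) 0 z := by
    intro E D hED f hf
    rw [← hσz] at hf ⊢
    obtain ⟨g, hg, rfl⟩ := hf
    rw [conjDer_apply, AlgEquiv.symm_apply_apply]
    exact ⟨_, stalk_pt_der hED 0 hg, rfl⟩
  have hX : ∀ i, σ (ι (X i)) ∈ stalk (projPoint k 3) 0 z := by
    intro i
    rw [← hσz]
    refine ⟨_, ?_, rfl⟩
    rw [mem_stalk_pt]
    exact ⟨X i, 1, by simp, by simp [hι]⟩
  have hone : IsUnitAt (projPoint k 3) z 1 := hasVal_one.isUnitAt hz one_ne_zero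
  obtain ⟨D', hD', hunit⟩ := proj_move z hz (conjDer σ δ) (conjDer σ ρ) (hcon _ δ hδ)
    (hcon _ ρ hρ) (hX 0) (hX 2)
    (by rw [conjDer_apply, AlgEquiv.symm_apply_apply, hρ, pderiv_X_self, map_one, map_one]
        exact hone)
    (by rw [conjDer_apply, AlgEquiv.symm_apply_apply, hδ, pderiv_X_self, map_one, map_one]
        exact hone)
  obtain ⟨f, hf, hf0⟩ := quad_rigid (conjDer σ.symm D') (by
    intro x hx g hg
    obtain ⟨x', hx', hxx'⟩ := hσ x hx
    have h1 : D' (σ g) ∈ stalk (projPoint k 3) 0 x' := hD' x' hx' _ (by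
      rw [← hxx']; exact ⟨g, hg, rfl⟩)
    rw [← hxx'] at h1
    obtain ⟨g', hg', hgg'⟩ := h1
    have h2 : conjDer σ.symm D' g = g' := by
      rw [conjDer_apply]
      change σ.symm (D' (σ g)) = g'
      rw [← hgg', AlgEquiv.symm_apply_apply]
    rw [h2]; exact hg')
  have h3 : σ.symm (D' (σ (ι (X 0)))) = ι f := hf
  rw [conjDer_apply, h3, hδ] at hunit
  obtain ⟨hne, -, hinv⟩ := hunit
  rw [← map_inv₀, ← hσz] at hinv
  obtain ⟨g, hg, hg'⟩ := hinv
  have hg2 := σ.injective hg'
  rw [hg2, mem_stalk_pt] at hg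
  obtain ⟨A, B, hB, hAB⟩ := hg
  have hB0 : ι B ≠ 0 := by
    refine (map_ne_zero_iff _ hinj).2 ?_
    rintro rfl
    exact hB (map_zero _)
  have hne' : ι (pderiv 2 f) ≠ 0 := fun h => hne (by rw [h, map_zero])
  have h4 : B = A * pderiv 2 f := by
    apply hinj
    rw [map_mul]
    change (ι (pderiv 2 f))⁻¹ = ι A / ι B at hAB
    field_simp at hAB
    rw [hAB]
    ring
  apply hB
  have h5 : eval (0 : Fin 3 → k) (pderiv 2 f) = 0 := by
    have h6 : eval (0 : Fin 3 → k) (pderiv 2 f) = coeff 0 (pderiv 2 f) := by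
      rw [← constantCoeff_eq]
      exact congrFun (congrArg _ (eval_zero)) _
    rw [h6, coeff_pderiv, zero_add, hf0, zero_mul]
  rw [h4, map_mul, h5, mul_zero]

end rigid

end Pool.Agent.U199.SQ
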