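import Pool.Agent.U199.SQ.Basic

universe u v w u' v' w'

namespace Pool.Agent.U199.SQ

open MvPolynomial

section der

/-- Derivations extend to the field of fractions. -/
theorem exists_der_frac {k B : Type u} [Field k] [CommRing B] [IsDomain B] [Algebra k B]
    (E : Derivation k B B) : ∃ E' : Derivation k (FractionRing B) (FractionRing B),
      ∀ b, E' (algebraMap B (FractionRing B) b) = algebraMap B (FractionRing B) (E b) := by
  open TensorProduct in
  let L := FractionRing B
  have hfe : Algebra.FormallyEtale B L :=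
    Algebra.FormallyEtale.of_isLocalization (nonZeroDivisors B)
  let l0 : Ω[B⁄k] →ₗ[B] L := (Algebra.linearMap B L) ∘ₗ E.liftKaehlerDifferential
  let l : L ⊗[B] Ω[B⁄k] →ₗ[L] L := LinearMap.liftBaseChange L l0
  let e := KaehlerDifferential.tensorKaehlerEquivOfFormallyEtale k B L
  refine ⟨(l ∘ₗ e.symm.toLinearMap).compDer (KaehlerDifferential.D k L), fun c => ?_⟩
  change l (e.symm (KaehlerDifferential.D k L (algebraMap B L c))) = _
  rw [KaehlerDifferential.tensorKaehlerEquivOfFormallyEtale_symm_D_algebraMap,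
    LinearMap.liftBaseChange_tmul, one_smul]
  change algebraMap B L (E.liftKaehlerDifferential (KaehlerDifferential.D k B c)) = _
  rw [Derivation.liftKaehlerDifferential_comp_D]

variable {k : Type u} [Field k] {K : Type v} [Field K] [Algebra k K] {ι : Type w} [Fintype ι]

/-- Chain rule. -/
theorem der_aeval (D : Derivation k K K) (η : ι → K) (F : MvPolynomial ι k) :
    D (aeval η F) = ∑ i, aeval η (pderiv i F) * D (η i) := by
  classical
  induction F using MvPolynomial.induction_on with
  | C a => simp
  | add p q hp hq => simp only [map_add, hp, hq, add_mul, Finset.sum_add_distrib]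
  | mul_X p i hp =>
    rw [map_mul, Derivation.leibniz, hp, aeval_X]
    simp only [Derivation.leibniz, pderiv_X, smul_eq_mul, map_add, map_mul, aeval_X, add_mul,
      Finset.sum_add_distrib]
    congr 1
    · rw [Finset.sum_eq_single i]
      · simp
      · intro j _ hj
        rw [Pi.single_eq_of_ne (by exact fun h => hj h.symm)]; simp
      · intro h; exact absurd (Finset.mem_univ _) h
    · rw [Finset.mul_sum]
      exact Finset.sum_congr rfl (fun j _ => by ring)

/-- The form `L * (G * ∂_i F - F * ∂_i G)`. -/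
noncomputable def wr (L F G : MvPolynomial ι k) (i : ι) : MvPolynomial ι k :=
  L * (G * pderiv i F - F * pderiv i G)

omit [Fintype ι] in
lemma wr_hom {L F G : MvPolynomial ι k} {d : ℕ} (hL : L.IsHomogeneous 1) (hF : F.IsHomogeneous d)
    (hG : G.IsHomogeneous d) (i : ι) : (wr L F G i).IsHomogeneous (d + d) := by
  obtain _ | d := d
  · rw [← totalDegree_zero_iff_isHomogeneous, totalDegree_eq_zero_iff_eq_C] at hF hG
    rw [wr, hF, hG]
    simp only [pderiv_C, mul_zero, sub_zero]
    exact isHomogeneous_zero _ _ _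
  · have h1 : (G * pderiv i F - F * pderiv i G).IsHomogeneous (d + 1 + d) :=
      (hG.mul hF.pderiv).sub (hF.mul hG.pderiv)
    have h2 := hL.mul h1
    have h3 : 1 + (d + 1 + d) = d + 1 + (d + 1) := by ring
    rw [h3] at h2
    exact h2

/-- Taylor expansion of first order of a quotient of two forms. -/
theorem der_quot (D : Derivation k K K) (η : ι → K) (i₀ : ι) (h0 : η i₀ ≠ 0)
    {F G : MvPolynomial ι k} {d : ℕ} (hF : F.IsHomogeneous d) (hG : G.IsHomogeneous d)
    (hGη : aeval η G ≠ 0) :
    D (aeval η F / aeval η G) =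
      ∑ m, aeval η (wr (X i₀) F G m) / aeval η (G * G) * D (η m / η i₀) := by
  have key : ∀ (H : MvPolynomial ι k), H.IsHomogeneous d → D (aeval η H) =
      η i₀ * (∑ m, aeval η (pderiv m H) * D (η m / η i₀)) + d * aeval η H * (D (η i₀) / η i₀) := by
    intro H hH
    rw [der_aeval]
    have e1 : ∀ m, D (η m) = η i₀ * D (η m / η i₀) + η m * (D (η i₀) / η i₀) := by
      intro m
      have : η m = η i₀ * (η m / η i₀) := by field_simp
      conv_lhs => rw [this]
      rw [Derivation.leibniz, smul_eq_mul, smul_eq_mul]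
      ring
    have e2 : ∑ m, η m * aeval η (pderiv m H) = d * aeval η H := by
      have := congrArg (aeval η) hH.sum_X_mul_pderiv
      rw [map_sum] at this
      simpa using this
    calc ∑ i, aeval η (pderiv i H) * D (η i)
        = ∑ i, (η i₀ * (aeval η (pderiv i H) * D (η i / η i₀)) +
            (η i * aeval η (pderiv i H)) * (D (η i₀) / η i₀)) :=
          Finset.sum_congr rfl (fun i _ => by rw [e1]; ring)
      _ = _ := by rw [Finset.sum_add_distrib, ← Finset.mul_sum, ← Finset.sum_mul, e2]
  rw [Derivation.leibniz_div, key F hF, key G hG]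
  have e3 : ∑ m, aeval η (wr (X i₀) F G m) / aeval η (G * G) * D (η m / η i₀) =
      (aeval η G)⁻¹ ^ 2 * (η i₀ * (aeval η G * (∑ m, aeval η (pderiv m F) * D (η m / η i₀)) -
        aeval η F * (∑ m, aeval η (pderiv m G) * D (η m / η i₀)))) := by
    rw [Finset.mul_sum, Finset.mul_sum, ← Finset.sum_sub_distrib, Finset.mul_sum, Finset.mul_sum]
    refine Finset.sum_congr rfl (fun m _ => ?_)
    simp only [wr, map_mul, map_sub, aeval_X]
    field_simp
  rw [e3]
  simp only [smul_eq_mul]
  ring

end der

section proj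

variable (k : Type u) [Field k] (n : ℕ)

/-- There is a derivation of the field of rational functions with prescribed values on the
variables. -/
theorem exists_der_vals (v : Fin n → FractionRing (MvPolynomial (Fin n) k)) :
    ∃ D : Derivation k (FractionRing (MvPolynomial (Fin n) k))
      (FractionRing (MvPolynomial (Fin n) k)),
      ∀ i, D (algebraMap (MvPolynomial (Fin n) k) _ (X i)) = v i := by
  classical
  choose E hE using fun i : Fin n => exists_der_frac (pderiv (R := k) i)
  refine ⟨∑ i, v i • E i, fun j => ?_⟩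
  have hs : ∀ (s : Finset (Fin n)) (x : FractionRing (MvPolynomial (Fin n) k)),
      (∑ i ∈ s, v i • E i) x = ∑ i ∈ s, (v i • E i) x := by
    intro s x
    induction s using Finset.induction_on with
    | empty => simp
    | insert i s hi ih =>
      rw [Finset.sum_insert hi, Finset.sum_insert hi, Derivation.add_apply, ih]
  rw [hs, Finset.sum_eq_single j]
  · rw [Derivation.smul_apply, hE, pderiv_X_self, map_one, smul_eq_mul, mul_one]
  · intro i _ hi
    rw [Derivation.smul_apply, hE, pderiv_X_of_ne (Ne.symm hi), map_zero, smul_zero]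
  · intro h; exact absurd (Finset.mem_univ _) h

variable {k n}

/-- The vector field `ℓ ∂ / ∂ x_i` on projective space. -/
theorem exists_field (ℓ : FractionRing (MvPolynomial (Fin n) k)) (i : Fin (n + 1)) :
    ∃ D : Derivation k (FractionRing (MvPolynomial (Fin n) k))
      (FractionRing (MvPolynomial (Fin n) k)),
      ∀ (d : ℕ) (F G : MvPolynomial (Fin (n + 1)) k), F.IsHomogeneous d → G.IsHomogeneous d →
        aeval (projPoint k n) G ≠ 0 →
        D (aeval (projPoint k n) F / aeval (projPoint k n) G) =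
          ℓ * aeval (projPoint k n) (wr 1 F G i) / aeval (projPoint k n) (G * G) := by
  classical
  obtain ⟨D, hD⟩ := exists_der_vals k n (fun m : Fin n => ℓ * ((if i = m.succ then 1 else 0) -
    projPoint k n m.succ * (if i = 0 then 1 else 0)))
  refine ⟨D, fun d F G hF hG hGη => ?_⟩
  set η := projPoint k n with hη
  have h0 : η 0 = 1 := rfl
  have hs : ∀ m : Fin n, η m.succ = algebraMap (MvPolynomial (Fin n) k) _ (X m) := fun m => rfl
  have h1 : ∀ m : Fin (n + 1), D (η m) = ℓ * ((if i = m then 1 else 0) -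
      η m * (if i = 0 then 1 else 0)) := by
    intro m
    refine Fin.cases ?_ (fun m => ?_) m
    · rw [h0, Derivation.map_one_eq_zero, one_mul, sub_self, mul_zero]
    · rw [← hD m, hs m]
  rw [der_quot D η 0 (by rw [h0]; exact one_ne_zero) hF hG hGη]
  have e1 : ∀ m, D (η m / η 0) = ℓ * ((if i = m then 1 else 0) -
      η m * (if i = 0 then 1 else 0)) := by
    intro m; rw [h0, div_one, h1]
  have e2 : ∀ H : MvPolynomial (Fin (n + 1)) k, H.IsHomogeneous d →
      ∑ m, η m * aeval η (pderiv m H) = d * aeval η H := by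
    intro H hH
    have := congrArg (aeval η) hH.sum_X_mul_pderiv
    rw [map_sum] at this
    simpa using this
  have e3 : ∑ m, aeval η (wr (X 0) F G m) * η m = 0 := by
    have : ∀ m, aeval η (wr (X 0) F G m) * η m = aeval η G * (η m * aeval η (pderiv m F)) -
        aeval η F * (η m * aeval η (pderiv m G)) := by
      intro m
      simp only [wr, map_mul, map_sub, aeval_X, h0]
      ring
    rw [Finset.sum_congr rfl (fun m _ => this m), Finset.sum_sub_distrib, ← Finset.mul_sum,
      ← Finset.mul_sum, e2 F hF, e2 G hG]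
    ring
  calc ∑ m, aeval η (wr (X 0) F G m) / aeval η (G * G) * D (η m / η 0)
      = ∑ m, (ℓ / aeval η (G * G) * (if i = m then aeval η (wr (X 0) F G m) else 0) -
          ℓ / aeval η (G * G) * (if i = 0 then 1 else 0) * (aeval η (wr (X 0) F G m) * η m)) := by
        refine Finset.sum_congr rfl (fun m _ => ?_)
        rw [e1]
        split_ifs <;> ring
    _ = _ := by
        rw [Finset.sum_sub_distrib, ← Finset.mul_sum, ← Finset.mul_sum, e3, mul_zero, sub_zero,
          Finset.sum_ite_eq, if_pos (Finset.mem_univ _)]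
        simp only [wr, map_mul, map_sub, aeval_X, h0, map_one]
        ring

/-- On projective space, a vector field which is a linear form times a coordinate field preserves
all the local rings. -/
theorem field_mem {ι : Type w} {K : Type v} [Field K] [Algebra k K] {η : ι → K}
    {L : MvPolynomial ι k} (hL : L.IsHomogeneous 1) {i : ι} {D : Derivation k K K}
    (hD : ∀ (d : ℕ) (F G : MvPolynomial ι k), F.IsHomogeneous d → G.IsHomogeneous d →
        aeval η G ≠ 0 →
        D (aeval η F / aeval η G) =
          aeval η L * aeval η (wr 1 F G i) / aeval η (G * G)) {x : ι → k} (hx : IsPoint η x)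
    {f : K} (hf : f ∈ stalk η 0 x) : D f ∈ stalk η 0 x := by
  obtain ⟨d, F, G, hF, hG, h1, rfl⟩ := hf
  rw [add_zero] at hF
  refine ⟨d + d, wr L F G i, G * G, by simpa using wr_hom hL hF hG i, hG.mul hG, ?_, ?_⟩
  · rw [map_mul]; exact mul_ne_zero h1 h1
  · rw [hD d F G hF hG (hx.ne hG h1)]
    simp only [wr, map_mul, one_mul]

/-- The vector fields of projective space vanishing at a point move every direction into every
other one. -/
theorem proj_move (z : Fin (n + 1) → k) (hz : IsPoint (projPoint k n) z)
    (δ ρ : Derivation k (FractionRing (MvPolynomial (Fin n) k))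
      (FractionRing (MvPolynomial (Fin n) k)))
    (hδ : ∀ f ∈ stalk (projPoint k n) 0 z, δ f ∈ stalk (projPoint k n) 0 z)
    (hρ : ∀ f ∈ stalk (projPoint k n) 0 z, ρ f ∈ stalk (projPoint k n) 0 z)
    {v w : FractionRing (MvPolynomial (Fin n) k)}
    (hv : v ∈ stalk (projPoint k n) 0 z) (hw : w ∈ stalk (projPoint k n) 0 z)
    (h1 : IsUnitAt (projPoint k n) z (ρ v)) (h2 : IsUnitAt (projPoint k n) z (δ w)) :
    ∃ D : Derivation k (FractionRing (MvPolynomial (Fin n) k))
        (FractionRing (MvPolynomial (Fin n) k)),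
      (∀ x : Fin (n + 1) → k, IsPoint (projPoint k n) x → ∀ f ∈ stalk (projPoint k n) 0 x,
        D f ∈ stalk (projPoint k n) 0 x) ∧ IsUnitAt (projPoint k n) z (δ (D v)) := by
  classical
  set η := projPoint k n with hη
  obtain ⟨i₀, hi₀⟩ := Function.ne_iff.1 hz.1
  rw [Pi.zero_apply] at hi₀
  have hXη : η i₀ ≠ 0 := by
    have := hz.ne (isHomogeneous_X k i₀) (by rw [aeval_X]; exact hi₀)
    rwa [aeval_X] at this
  -- the affine coordinates
  have hu : ∀ m, HasVal η z (η m / η i₀) (z m / z i₀) := fun m =>
    ⟨1, X m, X i₀, isHomogeneous_X _ _, isHomogeneous_X _ _, by rw [aeval_X]; exact hi₀,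
      by simp only [aeval_X], by simp only [aeval_X]⟩
  -- Taylor coefficients
  have tay : ∀ (E : Derivation k (FractionRing (MvPolynomial (Fin n) k))
      (FractionRing (MvPolynomial (Fin n) k)))
      (_ : ∀ f ∈ stalk (projPoint k n) 0 z, E f ∈ stalk (projPoint k n) 0 z)
      (f : FractionRing (MvPolynomial (Fin n) k)) (_ : IsUnitAt (projPoint k n) z (E f))
      (d : ℕ) (F G : MvPolynomial (Fin (n + 1)) k) (_ : F.IsHomogeneous d)
      (_ : G.IsHomogeneous d) (_ : aeval z G ≠ 0) (_ : f = aeval η F / aeval η G),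
      ∃ m b c, b ≠ 0 ∧ c ≠ 0 ∧
        HasVal η z (aeval η (wr (X i₀) F G m) / aeval η (G * G)) b ∧
        HasVal η z (E (η m / η i₀)) c := by
    intro E hE f hf d F G hF hG hGz hfFG
    choose c hc using fun m => exists_hasVal (hE _ (hu m).mem)
    have hb : ∀ m, HasVal η z (aeval η (wr (X i₀) F G m) / aeval η (G * G))
        (aeval z (wr (X i₀) F G m) / aeval z (G * G)) := fun m =>
      ⟨d + d, wr (X i₀) F G m, G * G, wr_hom (isHomogeneous_X _ _) hF hG m, hG.mul hG,
        by rw [map_mul]; exact mul_ne_zero hGz hGz, rfl, rfl⟩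
    have hsum := HasVal.sum hz Finset.univ (fun m _ => (hb m).mul hz (hc m))
    rw [← der_quot E η i₀ hXη hF hG (hz.ne hG hGz), ← hfFG] at hsum
    have hne := hf.ne_zero hz hsum
    obtain ⟨m, -, hm⟩ := Finset.exists_ne_zero_of_sum_ne_zero hne
    exact ⟨m, _, _, left_ne_zero_of_mul hm, right_ne_zero_of_mul hm, hb m, hc m⟩
  obtain ⟨d, F, G, hF, hG, hGz, hvFG⟩ := hv
  rw [add_zero] at hF
  obtain ⟨d', F', G', hF', hG', hGz', hwFG⟩ := hw
  rw [add_zero] at hF'
  obtain ⟨i, b, -, hb0, -, hb, -⟩ := tay ρ hρ v h1 d F G hF hG hGz hvFG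
  obtain ⟨j, -, c, -, hc0, -, hc⟩ := tay δ hδ w h2 d' F' G' hF' hG' hGz' hwFG
  set L : MvPolynomial (Fin (n + 1)) k := X j - C (z j / z i₀) * X i₀ with hLdef
  have hL : L.IsHomogeneous 1 := by
    refine (isHomogeneous_X _ _).sub ?_
    have := (isHomogeneous_C (Fin (n + 1)) (z j / z i₀)).mul (isHomogeneous_X k i₀)
    rwa [zero_add] at this
  obtain ⟨D, hD⟩ := exists_field (k := k) (n := n) (aeval η L) i
  refine ⟨D, fun x hx f hf => field_mem hL hD hx hf, ?_⟩
  have hDv : D v = (η j / η i₀ - algebraMap k _ (z j / z i₀)) *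
      (aeval η (wr (X i₀) F G i) / aeval η (G * G)) := by
    rw [hvFG, hD d F G hF hG (hz.ne hG hGz)]
    simp only [wr, hLdef, map_mul, map_sub, aeval_X, aeval_C, one_mul]
    rw [← hη]
    field_simp
  obtain ⟨e, he⟩ := exists_hasVal (hδ _ hb.mem)
  have hu0 : HasVal η z (η j / η i₀ - algebraMap k _ (z j / z i₀)) 0 :=
    ⟨1, L, X i₀, hL, isHomogeneous_X _ _, by rw [aeval_X]; exact hi₀, by
      simp only [hLdef, map_sub, map_mul, aeval_X, aeval_C]
      rw [sub_div, mul_div_assoc, div_self hXη, mul_one], by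
      simp only [hLdef, map_sub, map_mul, aeval_X, aeval_C]
      simp only [Algebra.algebraMap_self, RingHom.id_apply]
      rw [div_mul_cancel₀ _ hi₀, sub_self, zero_div]⟩
  have hδu : δ (η j / η i₀ - algebraMap k _ (z j / z i₀)) = δ (η j / η i₀) := by
    rw [map_sub, Derivation.map_algebraMap, sub_zero]
  have hfin : HasVal η z (δ (D v)) (0 * e + b * c) := by
    rw [hDv, Derivation.leibniz, hδu, smul_eq_mul, smul_eq_mul]
    exact (hu0.mul hz he).add hz (hb.mul hz hc)
  exact hfin.isUnitAt hz (by rw [zero_mul, zero_add]; exact mul_ne_zero hb0 hc0)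

end proj

end Pool.Agent.U199.SQ
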