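import Pool.Agent.U199.SQ.Proj

universe u v w u' v' w'

namespace Pool.Agent.U199.SQ

open MvPolynomial

/-- The point `(c : 1 : c^2 + a b : a : b)`, where `a = t_0`, `b = t_1`, `c = t_2`. -/
noncomputable def quadPointR (k : Type u) [Field k] : Fin 5 → MvPolynomial (Fin 3) k :=
  ![X 2, 1, X 2 ^ 2 + X 0 * X 1, X 0, X 1]

section gen

variable {k : Type u} [Field k]

/-- Homogeneous forms scale. -/
theorem aeval_scale {ι : Type w} {A : Type v} [CommRing A] [Algebra k A] {G : MvPolynomial ι k}
    {d : ℕ} (hG : G.IsHomogeneous d) (c : A) (x : ι → A) :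
    aeval (fun i => c * x i) G = c ^ d * aeval x G := by
  rw [aeval_def, aeval_def, eval₂_eq, eval₂_eq, Finset.mul_sum]
  refine Finset.sum_congr rfl (fun m hm => ?_)
  have h1 : d = ∑ i ∈ m.support, m i := hG.degree_eq_sum_deg_support hm
  have h2 : ∏ i ∈ m.support, (c * x i) ^ m i = c ^ d * ∏ i ∈ m.support, x i ^ m i := by
    simp_rw [mul_pow]
    rw [Finset.prod_mul_distrib, Finset.prod_pow_eq_pow_sum, ← h1]
  rw [h2]
  ring

/-- A rational function which is regular at all the points of affine space is a polynomial. -/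
theorem mem_of_local [IsAlgClosed k] {σ : Type} [Finite σ] (f : FractionRing (MvPolynomial σ k))
    (h : ∀ p : σ → k, ∃ A B : MvPolynomial σ k, eval p B ≠ 0 ∧
      f * algebraMap _ _ B = algebraMap _ _ A) :
    ∃ P : MvPolynomial σ k, f = algebraMap _ _ P := by
  let I : Ideal (MvPolynomial σ k) :=
    { carrier := {B | ∃ A : MvPolynomial σ k, f * algebraMap _ _ B = algebraMap _ _ A}
      add_mem' := by
        rintro B B' ⟨A, hA⟩ ⟨A', hA'⟩
        exact ⟨A + A', by rw [map_add, map_add, mul_add, hA, hA']⟩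
      zero_mem' := ⟨0, by simp⟩
      smul_mem' := by
        rintro c B ⟨A, hA⟩
        exact ⟨c * A, by rw [smul_eq_mul, map_mul, map_mul, mul_left_comm, hA]⟩ }
  have hI : I = ⊤ := by
    by_contra hne
    obtain ⟨m, hm, hIm⟩ := Ideal.exists_le_maximal I hne
    obtain ⟨p, hp⟩ := (MvPolynomial.isMaximal_iff_eq_vanishingIdeal_singleton (K := k)).1 hm
    obtain ⟨A, B, hB, hAB⟩ := h p
    have h1 : B ∈ m := hIm ⟨A, hAB⟩
    rw [hp, MvPolynomial.mem_vanishingIdeal_singleton_iff] at h1
    exact hB h1
  have h1 : (1 : MvPolynomial σ k) ∈ I := by rw [hI]; trivial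
  obtain ⟨A, hA⟩ := h1
  exact ⟨A, by rw [← hA, map_one, mul_one]⟩

end gen

section quad

variable {k : Type u} [Field k]

lemma aeval_quadPoint (F : MvPolynomial (Fin 5) k) : aeval (quadPoint k) F =
    algebraMap (MvPolynomial (Fin 3) k) _ (aeval (quadPointR k) F) := by
  have h : quadPoint k = fun i => algebraMap (MvPolynomial (Fin 3) k) _ (quadPointR k i) := rfl
  rw [h]
  exact (aeval_algebraMap_apply _ _ _)

lemma aeval_quadPoint_eq_zero (F : MvPolynomial (Fin 5) k) :
    aeval (quadPoint k) F = 0 ↔ aeval (quadPointR k) F = 0 := by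
  rw [aeval_quadPoint]
  exact map_eq_zero_iff _ (IsFractionRing.injective _ _)

/-- The point of the quadric with given affine coordinates. -/
def pt (p : Fin 3 → k) : Fin 5 → k := ![p 2, 1, p 2 ^ 2 + p 0 * p 1, p 0, p 1]

lemma eval_quadPointR (p : Fin 3 → k) (F : MvPolynomial (Fin 5) k) :
    eval p (aeval (quadPointR k) F) = aeval (pt p) F := by
  have h : pt p = fun i => aeval p (quadPointR k i) := by
    funext i
    fin_cases i <;> simp [pt, quadPointR]
  rw [h, ← MvPolynomial.coe_aeval_eq_eval]
  have := MvPolynomial.comp_aeval_apply (f := quadPointR k) (aeval p : MvPolynomial (Fin 3) k →ₐ[k] k) F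
  exact this

lemma aeval_quad {A : Type v} [CommRing A] [Algebra k A] (x : Fin 5 → A) :
    aeval x (quad k) = x 0 ^ 2 + x 1 * x 2 + x 3 * x 4 := by
  simp [quad]

lemma quad_hom : (quad k).IsHomogeneous 2 :=
  ((isHomogeneous_X_pow 0 2).add ((isHomogeneous_X k 1).mul (isHomogeneous_X k 2))).add
    ((isHomogeneous_X k 3).mul (isHomogeneous_X k 4))

variable [CharP k 2]

/-- A form vanishing at the generic point vanishes at the points of the quadric with `x_1 ≠ 0`. -/
lemma vanish_chart {d : ℕ} {G : MvPolynomial (Fin 5) k} (hG : G.IsHomogeneous d)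
    (h : aeval (quadPoint k) G = 0) (x : Fin 5 → k) (hx : aeval x (quad k) = 0) (h1 : x 1 ≠ 0) :
    aeval x G = 0 := by
  have h2 : x = fun i => x 1 * pt ![x 3 / x 1, x 4 / x 1, x 0 / x 1] i := by
    have e2 : x 2 = x 1 * ((x 0 / x 1) ^ 2 + x 3 / x 1 * (x 4 / x 1)) := by
      rw [aeval_quad] at hx
      have h3 : x 1 * x 2 = x 0 ^ 2 + x 3 * x 4 := by
        have h4 : x 1 * x 2 = - (x 0 ^ 2 + x 3 * x 4) := by linear_combination hx
        rw [h4, CharTwo.neg_eq]
      field_simp
      linear_combination h3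
    funext i
    fin_cases i
    · simp [pt]; field_simp
    · simp [pt]
    · simp only [pt, Fin.reduceFinMk, Matrix.cons_val]; exact e2
    · simp [pt]; field_simp
    · simp [pt]; field_simp
  rw [h2, aeval_scale hG, ← eval_quadPointR, (aeval_quadPoint_eq_zero G).1 h, map_zero, mul_zero]

/-- The ideal of the quadric is generated by its equation. -/
theorem quad_dvd [IsAlgClosed k] {d : ℕ} {G : MvPolynomial (Fin 5) k} (hG : G.IsHomogeneous d)
    (h : aeval (quadPoint k) G = 0) : quad k ∣ G := by
  have hinf : Infinite k := IsAlgClosed.instInfinite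
  set s : MvPolynomial (Fin 4) k := X 0 * X 1 + X 2 * X 3 with hs
  set Q : Polynomial (MvPolynomial (Fin 4) k) := Polynomial.X ^ 2 + Polynomial.C s with hQ
  have hΦq : finSuccEquiv k 4 (quad k) = Q := by
    have e1 : (1 : Fin 5) = Fin.succ 0 := rfl
    have e2 : (2 : Fin 5) = Fin.succ 1 := rfl
    have e3 : (3 : Fin 5) = Fin.succ 2 := rfl
    have e4 : (4 : Fin 5) = Fin.succ 3 := rfl
    rw [quad, map_add, map_add, map_pow, map_mul, map_mul, e1, e2, e3, e4, finSuccEquiv_X_zero]
    simp only [finSuccEquiv_X_succ]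
    rw [hQ, hs]
    simp only [map_add, map_mul]
    ring
  have hmonic : Q.Monic := Polynomial.monic_X_pow_add_C s two_ne_zero
  have hdegQ : Q.degree = 2 := Polynomial.degree_X_pow_add_C (by norm_num) s
  set r := finSuccEquiv k 4 G %ₘ Q with hr
  have hrdeg : r.degree < 2 := by
    rw [← hdegQ]
    exact Polynomial.degree_modByMonic_lt _ hmonic
  have hr2 : r = Polynomial.C (r.coeff 1) * Polynomial.X + Polynomial.C (r.coeff 0) :=
    Polynomial.eq_X_add_C_of_degree_le_one (by
      rw [Polynomial.degree_le_iff_coeff_zero]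
      intro m hm
      have hm' : 2 ≤ m := by
        have : (1 : ℕ) < m := by exact_mod_cast hm
        exact this
      exact (Polynomial.degree_lt_iff_coeff_zero r 2).1 hrdeg m hm')
  set A := r.coeff 1 with hA
  set B := r.coeff 0 with hB
  have hdiv : finSuccEquiv k 4 G = r + Q * (finSuccEquiv k 4 G /ₘ Q) :=
    (Polynomial.modByMonic_add_div _ Q).symm
  -- evaluation at points
  have hev : ∀ p : Fin 4 → k, eval p (X 0 * (A ^ 2 * s - B ^ 2)) = 0 := by
    intro p
    by_cases hp : p 0 = 0
    · rw [map_mul, eval_X, hp, zero_mul]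
    · obtain ⟨y, hy⟩ := IsAlgClosed.exists_pow_nat_eq (eval p s) (n := 2) (by norm_num)
      set x : Fin 5 → k := Fin.cons y p with hx
      have hqx : aeval x (quad k) = 0 := by
        rw [aeval_quad]
        have e1 : x 0 = y := rfl
        have e2 : x 1 = p 0 := rfl
        have e3 : x 2 = p 1 := rfl
        have e4 : x 3 = p 2 := rfl
        have e5 : x 4 = p 3 := rfl
        rw [e1, e2, e3, e4, e5, hy, hs]
        simp only [map_add, map_mul, eval_X]
        rw [add_assoc]
        exact CharTwo.add_self_eq_zero _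
      have hGx : aeval x G = 0 := vanish_chart hG h x hqx hp
      have h3 : eval x G = Polynomial.eval y (Polynomial.map (eval p) (finSuccEquiv k 4 G)) :=
        eval_eq_eval_mv_eval' p y G
      have h4 : eval p A * y + eval p B = 0 := by
        have h5 : eval x (quad k) = Polynomial.eval y (Polynomial.map (eval p) Q) := by
          rw [← hΦq]; exact eval_eq_eval_mv_eval' p y _
        rw [← MvPolynomial.coe_aeval_eq_eval] at h3 h5
        have h6 : Polynomial.eval y (Polynomial.map (eval p) Q) = 0 := by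
          rw [← h5]; exact hqx
        rw [hdiv, Polynomial.map_add, Polynomial.map_mul, Polynomial.eval_add,
          Polynomial.eval_mul, h6, zero_mul, add_zero, hr2] at h3
        simp only [Polynomial.map_add, Polynomial.map_mul, Polynomial.map_C, Polynomial.map_X,
          Polynomial.eval_add, Polynomial.eval_mul, Polynomial.eval_C, Polynomial.eval_X] at h3
        rw [← h3]; exact hGx
      have h7 : eval p B = eval p A * y := by
        have : eval p B = - (eval p A * y) := by linear_combination h4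
        rw [this, CharTwo.neg_eq]
      rw [map_mul, map_sub, map_mul, map_pow, map_pow, h7, ← hy]
      ring
  have h8 : X 0 * (A ^ 2 * s - B ^ 2) = 0 := by
    apply MvPolynomial.funext
    intro p
    rw [hev, map_zero]
  have h9 : A ^ 2 * s = B ^ 2 := by
    rcases mul_eq_zero.1 h8 with h | h
    · exact absurd h (X_ne_zero 0)
    · exact sub_eq_zero.1 h
  have h2 : (2 : MvPolynomial (Fin 4) k) = 0 := by
    have : (2 : MvPolynomial (Fin 4) k) = C 2 := (map_ofNat C 2).symm
    rw [this, CharTwo.two_eq_zero, C_0]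
  have hA0 : A = 0 := by
    have h10 := congrArg (pderiv 0) h9
    simp only [hs, Derivation.leibniz, Derivation.leibniz_pow, map_add, pderiv_X_self,
      smul_eq_mul, nsmul_eq_mul, Nat.cast_ofNat, h2, zero_mul, mul_zero, add_zero] at h10
    rw [pderiv_X_of_ne (by decide), pderiv_X_of_ne (by decide), pderiv_X_of_ne (by decide)] at h10
    simp only [mul_zero, zero_add, mul_one, add_zero] at h10
    rcases mul_eq_zero.1 h10 with h | h
    · exact pow_eq_zero_iff two_ne_zero |>.1 h
    · exact absurd h (X_ne_zero 1)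
  have hB0 : B = 0 := by
    rw [hA0, zero_pow two_ne_zero, zero_mul] at h9
    exact pow_eq_zero_iff two_ne_zero |>.1 h9.symm
  rw [hr2, hA0, hB0] at hdiv
  simp only [Polynomial.C_0, zero_mul, zero_add] at hdiv
  refine ⟨(finSuccEquiv k 4).symm (finSuccEquiv k 4 G /ₘ Q), ?_⟩
  apply (finSuccEquiv k 4).injective
  rw [map_mul, AlgEquiv.apply_symm_apply, hΦq]
  exact hdiv

/-- A form vanishes at the generic point of the quadric iff it is divisible by the equation. -/
theorem quad_ideal [IsAlgClosed k] {d : ℕ} {G : MvPolynomial (Fin 5) k} (hG : G.IsHomogeneous d) :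
    aeval (quadPoint k) G = 0 ↔ quad k ∣ G := by
  refine ⟨quad_dvd hG, ?_⟩
  rintro ⟨H, rfl⟩
  rw [map_mul]
  have : aeval (quadPoint k) (quad k) = 0 := by
    rw [aeval_quadPoint_eq_zero, aeval_quad]
    simp only [quadPointR, Matrix.cons_val]
    have h2 : (2 : MvPolynomial (Fin 3) k) = 0 := by
      have : (2 : MvPolynomial (Fin 3) k) = C 2 := (map_ofNat C 2).symm
      rw [this, CharTwo.two_eq_zero, C_0]
    linear_combination (X 2 ^ 2 + X 0 * X 1) * h2
  rw [this, zero_mul]

/-- The points of the quadric. -/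
theorem quad_point [IsAlgClosed k] (x : Fin 5 → k) :
    IsPoint (quadPoint k) x ↔ x ≠ 0 ∧ aeval x (quad k) = 0 := by
  refine ⟨fun hx => ⟨hx.1, hx.2 2 _ quad_hom ((quad_ideal quad_hom).2 dvd_rfl)⟩, fun hx => ⟨hx.1,
    fun d F hF h => ?_⟩⟩
  obtain ⟨H, rfl⟩ := quad_dvd hF h
  rw [map_mul, hx.2, zero_mul]

end quad

end Pool.Agent.U199.SQ
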