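import Pool.Agent.U199.SQ.Quad

universe u v w u' v' w'

namespace Pool.Agent.U199.SQ

open MvPolynomial

variable {k : Type u} [Field k]

/-- The quadric is smooth. -/
theorem quad_smooth (x : Fin 5 → k) (hx0 : x ≠ 0) (hx : aeval x (quad k) = 0) :
    ∃ i, aeval x (pderiv i (quad k)) ≠ 0 := by
  by_contra hcon
  push Not at hcon
  have h1 := hcon 1
  have h2 := hcon 2
  have h3 := hcon 3
  have h4 := hcon 4
  simp only [quad, map_add, Derivation.leibniz, Derivation.leibniz_pow, pderiv_X, smul_eq_mul,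
    map_mul, aeval_X, nsmul_eq_mul] at h1 h2 h3 h4
  simp at h1 h2 h3 h4
  rw [aeval_quad, h1, h2, h3, h4] at hx
  apply hx0
  funext i
  have h0 : x 0 = 0 := by simpa using hx
  fin_cases i
  · exact h0
  · exact h2
  · exact h1
  · exact h4
  · exact h3

/-- Homogenization of a polynomial in the affine coordinates. -/
noncomputable def homog (P : MvPolynomial (Fin 3) k) (M : ℕ) : MvPolynomial (Fin 5) k :=
  ∑ j ∈ Finset.range (M + 1), X 1 ^ (M - j) * rename ![3, 4, 0] (homogeneousComponent j P)

lemma homog_hom (P : MvPolynomial (Fin 3) k) (M : ℕ) : (homog P M).IsHomogeneous M := by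
  refine IsHomogeneous.sum _ _ _ (fun j hj => ?_)
  have h1 := (isHomogeneous_X_pow (R := k) (1 : Fin 5) (M - j)).mul
    ((homogeneousComponent_isHomogeneous j P).rename_isHomogeneous (f := ![3, 4, 0]))
  have h2 : M - j + j = M := Nat.sub_add_cancel (by rw [Finset.mem_range] at hj; omega)
  rwa [h2] at h1

lemma aeval_homog {A : Type v} [CommRing A] [Algebra k A] (y : Fin 5 → A)
    (P : MvPolynomial (Fin 3) k) (M : ℕ) : aeval y (homog P M) =
      ∑ j ∈ Finset.range (M + 1), y 1 ^ (M - j) *
        aeval ![y 3, y 4, y 0] (homogeneousComponent j P) := by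
  rw [homog, map_sum]
  refine Finset.sum_congr rfl (fun j _ => ?_)
  rw [map_mul, map_pow, aeval_X, aeval_rename]
  congr 2
  congr 1
  funext i
  fin_cases i <;> rfl

lemma aeval_homog_one {A : Type v} [CommRing A] [Algebra k A] (y : Fin 5 → A) (hy : y 1 = 1)
    (P : MvPolynomial (Fin 3) k) (M : ℕ) (hM : P.totalDegree ≤ M) :
    aeval y (homog P M) = aeval ![y 3, y 4, y 0] P := by
  rw [aeval_homog, hy]
  simp only [one_pow, one_mul]
  rw [← map_sum]
  congr 1
  conv_rhs => rw [← sum_homogeneousComponent P]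
  symm
  apply Finset.sum_subset
  · intro j hj
    rw [Finset.mem_range] at hj ⊢
    omega
  · intro j _ hj
    rw [Finset.mem_range] at hj
    exact homogeneousComponent_eq_zero _ _ (by omega)

lemma quadPoint_homog (P : MvPolynomial (Fin 3) k) (M : ℕ) (hM : P.totalDegree ≤ M) :
    aeval (quadPoint k) (homog P M) = algebraMap (MvPolynomial (Fin 3) k) _ P := by
  rw [aeval_quadPoint, aeval_homog_one _ (by rfl) P M hM]
  congr 1
  have : (![quadPointR k 3, quadPointR k 4, quadPointR k 0] : Fin 3 → MvPolynomial (Fin 3) k) = X := by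
    funext i
    fin_cases i <;> rfl
  rw [this, aeval_X_left_apply]

lemma pt_homog (p : Fin 3 → k) (P : MvPolynomial (Fin 3) k) (M : ℕ) (hM : P.totalDegree ≤ M) :
    aeval (pt p) (homog P M) = eval p P := by
  rw [aeval_homog_one _ (by rfl) P M hM, ← MvPolynomial.coe_aeval_eq_eval]
  have : (![pt p 3, pt p 4, pt p 0] : Fin 3 → k) = p := by
    funext i
    fin_cases i <;> rfl
  rw [this]; rfl

/-- Every rational function is a quotient of two forms at the generic point. -/
theorem quad_gen (f : FractionRing (MvPolynomial (Fin 3) k)) :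
    ∃ (d : ℕ) (F G : MvPolynomial (Fin 5) k), F.IsHomogeneous d ∧ G.IsHomogeneous d ∧
      aeval (quadPoint k) G ≠ 0 ∧ f = aeval (quadPoint k) F / aeval (quadPoint k) G := by
  obtain ⟨A, B, hB, rfl⟩ := IsFractionRing.div_surjective (A := MvPolynomial (Fin 3) k) f
  have h1 := quadPoint_homog A (max A.totalDegree B.totalDegree) (le_max_left _ _)
  have h2 := quadPoint_homog B (max A.totalDegree B.totalDegree) (le_max_right _ _)
  refine ⟨max A.totalDegree B.totalDegree, homog A _, homog B _, homog_hom _ _, homog_hom _ _,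
    ?_, by rw [h1, h2]⟩
  rw [h2]
  exact (map_ne_zero_iff _ (IsFractionRing.injective _ _)).2 (nonZeroDivisors.ne_zero hB)

lemma pt_ne (p : Fin 3 → k) : pt p ≠ 0 := by
  intro h
  have := congrFun h 1
  exact one_ne_zero this

section

variable [CharP k 2]

lemma pt_isPoint [IsAlgClosed k] (p : Fin 3 → k) : IsPoint (quadPoint k) (pt p) := by
  rw [quad_point, aeval_quad]
  refine ⟨pt_ne p, ?_⟩
  simp only [pt, Matrix.cons_val]
  linear_combination (p 2 ^ 2 + p 0 * p 1) * CharTwo.two_eq_zero (R := k)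

end

/-- The local ring of the quadric at a point of the affine chart. -/
lemma mem_stalk_pt (p : Fin 3 → k) (f : FractionRing (MvPolynomial (Fin 3) k)) :
    f ∈ stalk (quadPoint k) 0 (pt p) ↔ ∃ A B : MvPolynomial (Fin 3) k, eval p B ≠ 0 ∧
      f = algebraMap _ _ A / algebraMap _ _ B := by
  constructor
  · rintro ⟨d, F, G, hF, hG, h1, rfl⟩
    refine ⟨aeval (quadPointR k) F, aeval (quadPointR k) G, ?_, ?_⟩
    · rw [eval_quadPointR]; exact h1
    · rw [aeval_quadPoint, aeval_quadPoint]
  · rintro ⟨A, B, hB, rfl⟩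
    refine ⟨max A.totalDegree B.totalDegree, homog A _, homog B _, homog_hom _ _, homog_hom _ _,
      ?_, ?_⟩
    · rw [pt_homog _ _ _ (le_max_right _ _)]; exact hB
    · rw [add_zero, quadPoint_homog _ _ (le_max_left _ _), quadPoint_homog _ _ (le_max_right _ _)]

/-- The exchange of the coordinates `x_1` and `x_2`. -/
def sw : Fin 5 → Fin 5 := ![0, 2, 1, 3, 4]

lemma sw_sw (i : Fin 5) : sw (sw i) = i := by
  fin_cases i <;> rfl

lemma rename_sw_quad : rename sw (quad k) = quad k := by
  simp only [quad, map_add, map_pow, map_mul, rename_X]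
  simp only [sw, Matrix.cons_val]
  ring

lemma rename_sw_sw (G : MvPolynomial (Fin 5) k) : rename sw (rename sw G) = G := by
  rw [rename_rename]
  have : (sw ∘ sw) = id := funext sw_sw
  rw [this, rename_id_apply]

/-- The exchange of two coordinates respects vanishing at the generic point. -/
lemma quad_swap [CharP k 2] [IsAlgClosed k] {d : ℕ} {G : MvPolynomial (Fin 5) k} (hG : G.IsHomogeneous d) :
    aeval (fun i => quadPoint k (sw i)) G = 0 ↔ aeval (quadPoint k) G = 0 := by
  have h1 : aeval (fun i => quadPoint k (sw i)) G = aeval (quadPoint k) (rename sw G) := by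
    rw [aeval_rename]; rfl
  rw [h1, quad_ideal hG, quad_ideal hG.rename_isHomogeneous]
  constructor
  · rintro ⟨H, hH⟩
    refine ⟨rename sw H, ?_⟩
    rw [← rename_sw_sw G, hH, map_mul, rename_sw_quad]
  · rintro ⟨H, rfl⟩
    exact ⟨rename sw H, by rw [map_mul, rename_sw_quad]⟩

lemma aeval_pt_sw (p : Fin 3 → k) (G : MvPolynomial (Fin 5) k) :
    aeval (fun i => pt p (sw i)) G = eval p (aeval (fun i => quadPointR k (sw i)) G) := by
  have h1 : aeval (fun i => pt p (sw i)) G = aeval (pt p) (rename sw G) := by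
    rw [aeval_rename]; rfl
  have h2 : aeval (fun i => quadPointR k (sw i)) G = aeval (quadPointR k) (rename sw G) := by
    rw [aeval_rename]; rfl
  rw [h1, h2, eval_quadPointR]

lemma aeval_quadPoint_sw (G : MvPolynomial (Fin 5) k) :
    aeval (fun i => quadPoint k (sw i)) G =
      algebraMap (MvPolynomial (Fin 3) k) _ (aeval (fun i => quadPointR k (sw i)) G) := by
  have h1 : aeval (fun i => quadPoint k (sw i)) G = aeval (quadPoint k) (rename sw G) := by
    rw [aeval_rename]; rfl
  have h2 : aeval (fun i => quadPointR k (sw i)) G = aeval (quadPointR k) (rename sw G) := by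
    rw [aeval_rename]; rfl
  rw [h1, h2, aeval_quadPoint]

lemma aeval_sw_homog (P : MvPolynomial (Fin 3) k) (M : ℕ) :
    aeval (fun i => quadPointR k (sw i)) (homog P M) = ∑ j ∈ Finset.range (M + 1),
        (X 2 ^ 2 + X 0 * X 1) ^ (M - j) * homogeneousComponent j P := by
  rw [aeval_homog]
  refine Finset.sum_congr rfl (fun j _ => ?_)
  have : (![quadPointR k (sw 3), quadPointR k (sw 4), quadPointR k (sw 0)] :
      Fin 3 → MvPolynomial (Fin 3) k) = X := by
    funext i
    fin_cases i <;> rfl
  rw [this, aeval_X_left_apply]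
  rfl

/-- The rational functions which are regular on the chart `x_2 ≠ 0`. -/
theorem second_chart [CharP k 2] [IsAlgClosed k] (φ : FractionRing (MvPolynomial (Fin 3) k))
    (h : ∀ x : Fin 5 → k, IsPoint (quadPoint k) x → x 2 ≠ 0 → φ ∈ stalk (quadPoint k) 0 x) :
    ∃ (P : MvPolynomial (Fin 3) k) (M : ℕ), 1 ≤ M ∧
      algebraMap (MvPolynomial (Fin 3) k) _ ((X 2 ^ 2 + X 0 * X 1) ^ M) * φ =
      algebraMap (MvPolynomial (Fin 3) k) _ (∑ j ∈ Finset.range (M + 1),
        (X 2 ^ 2 + X 0 * X 1) ^ (M - j) * homogeneousComponent j P) := by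
  set η := quadPoint k with hη
  -- points with `x_2 ≠ 0`
  have hpt : ∀ p : Fin 3 → k, IsPoint η (fun i => pt p (sw i)) := by
    intro p
    rw [hη, quad_point, aeval_quad]
    refine ⟨fun h0 => ?_, ?_⟩
    · have := congrFun h0 2
      exact one_ne_zero this
    · simp only [pt, sw, Matrix.cons_val]
      linear_combination (p 2 ^ 2 + p 0 * p 1) * CharTwo.two_eq_zero (R := k)
  have hpt2 : ∀ p : Fin 3 → k, (fun i => pt p (sw i)) (2 : Fin 5) ≠ (0 : k) := by
    intro p
    exact one_ne_zero
  obtain ⟨d, F, G, hF, hG, hG1, hφ⟩ := h _ (hpt 0) (hpt2 0)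
  rw [add_zero] at hF
  have hGη : aeval η G ≠ 0 := (hpt 0).ne hG hG1
  have hGη' : aeval (fun i => η (sw i)) G ≠ 0 := fun h0 => hGη ((quad_swap hG).1 h0)
  obtain ⟨P, hP⟩ := mem_of_local (aeval (fun i => η (sw i)) F / aeval (fun i => η (sw i)) G) (by
    intro p
    obtain ⟨e, A, B, hA, hB, hB1, hφ'⟩ := h _ (hpt p) (hpt2 p)
    rw [add_zero] at hA
    have hBη : aeval η B ≠ 0 := (hpt p).ne hB hB1
    refine ⟨aeval (fun i => quadPointR k (sw i)) A, aeval (fun i => quadPointR k (sw i)) B, ?_, ?_⟩
    · rw [← aeval_pt_sw]; exact hB1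
    · rw [← aeval_quadPoint_sw, ← aeval_quadPoint_sw]
      have h1 : aeval η (F * B - A * G) = 0 := by
        rw [hφ, div_eq_div_iff hGη hBη] at hφ'
        rw [map_sub, map_mul, map_mul, hφ', sub_self]
      have h2 : (F * B - A * G).IsHomogeneous (d + e) :=
        (hF.mul hB).sub (by rw [add_comm]; exact hA.mul hG)
      have h3 := (quad_swap h2).2 h1
      rw [map_sub, map_mul, map_mul, sub_eq_zero] at h3
      rw [div_mul_eq_mul_div, div_eq_iff hGη', h3])
  set M := P.totalDegree + 1 with hM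
  refine ⟨P, M, by omega, ?_⟩
  have hPM : P.totalDegree ≤ M := by omega
  -- the form `x_1^M F^sw - P^ G^sw`
  have h1 : aeval (fun i => η (sw i)) (X 2 ^ M * F - rename sw (homog P M) * G) = 0 := by
    rw [map_sub, map_mul, map_mul, map_pow, aeval_X, aeval_rename]
    have e1 : (fun i => η (sw i)) ∘ sw = η := by
      funext i
      change η (sw (sw i)) = η i
      rw [sw_sw]
    have e2 : η (sw 2) = 1 := by
      change algebraMap (MvPolynomial (Fin 3) k) _ 1 = 1
      rw [map_one]
    rw [e1, e2, one_pow, one_mul, hη, quadPoint_homog P M hPM, ← hP]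
    rw [div_mul_cancel₀ _ hGη', sub_self]
  have h2 : (X 2 ^ M * F - rename sw (homog P M) * G).IsHomogeneous (M + d) :=
    ((isHomogeneous_X_pow _ _).mul hF).sub ((homog_hom P M).rename_isHomogeneous.mul hG)
  have h3 := (quad_swap h2).1 h1
  rw [map_sub, map_mul, map_mul, map_pow, aeval_X, aeval_rename, sub_eq_zero] at h3
  have e3 : quadPoint k 2 = algebraMap (MvPolynomial (Fin 3) k) _ (X 2 ^ 2 + X 0 * X 1) := rfl
  have e4 : aeval (quadPoint k ∘ sw) (homog P M) =
      algebraMap (MvPolynomial (Fin 3) k) _ (∑ j ∈ Finset.range (M + 1),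
        (X 2 ^ 2 + X 0 * X 1) ^ (M - j) * homogeneousComponent j P) := by
    rw [← aeval_sw_homog]
    exact aeval_quadPoint_sw _
  rw [← e4, map_pow, ← e3, hφ, mul_div_assoc', h3, mul_div_assoc, div_self hGη, mul_one]

end Pool.Agent.U199.SQ
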